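import Pool.Agent.Lib.MP_19e880_co_G3.Dense
import Pool.Agent.Lib.MP_19e880_co_G2.Inst

/-!
The bounds for the third entry of the gamma vector, in final form.
-/

set_option autoImplicit false
set_option linter.unusedSectionVars false
set_option linter.unusedVariables false

namespace Pool.Agent.MP19e880.G3

open Pool.Agent.MP19e880 Pool.Agent.MP19e880.Low Pool.Agent.MP19e880.G2 Polynomial

variable {V : Type} [Fintype V] [LinearOrder V] {k : Type} [Field k]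

theorem gamma_zero_eq {S : Finset (Finset V)} {d : ℕ} (h0 : (∅ : Finset V) ∈ S) (γ : ℕ → ℤ)
    (hγ : ∑ j ∈ Finset.range (d + 1),
        C (((S.filter (fun G => G.card = j)).card : ℕ) : ℤ) * X ^ j * (1 - X) ^ (d - j) =
      ∑ i ∈ Finset.range (d / 2 + 1), C (γ i) * X ^ i * (1 + X : ℤ[X]) ^ (d - 2 * i)) :
    γ 0 = 1 := by
  set f : ℕ → ℤ := fun j => (((S.filter (fun G => G.card = j)).card : ℕ) : ℤ) with hf
  have hf0 : f 0 = 1 := by
    have h1 : f 0 = fn S ∅ 0 := by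
      simp only [hf]
      unfold fn
      congr 2
      refine Finset.filter_congr fun F _ => ?_
      simp
    rw [h1, fn_zero S ∅ h0]
    rfl
  have hγ' : ∑ j ∈ Finset.range (d + 1), C (f j) * X ^ j * (1 - X) ^ (d - j) =
      ∑ i ∈ Finset.range (d / 2 + 1), C (γ i) * X ^ i * (1 + X : ℤ[X]) ^ (d - 2 * i) := hγ
  exact gamma_zero d f γ hf0 hγ'

theorem gamma_three {S : Finset (Finset V)} {d : ℕ} (h : HS k S d) (hE : Eul S d)
    (hL : LemmaL (Adj S) (Lk S d)) (h0 : (∅ : Finset V) ∈ S) (hd : 6 ≤ d) (γ : ℕ → ℤ)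
    (hγ : ∑ j ∈ Finset.range (d + 1),
        C (((S.filter (fun G => G.card = j)).card : ℕ) : ℤ) * X ^ j * (1 - X) ^ (d - j) =
      ∑ i ∈ Finset.range (d / 2 + 1), C (γ i) * X ^ i * (1 + X : ℤ[X]) ^ (d - 2 * i)) :
    (-((2 * (d : ℤ) - 8) * γ 2) ≤ 3 * γ 3 ∧ 3 * γ 3 ≤ (γ 1 + 8) * γ 2) ∧
    γ 2 * (4 * γ 2 - γ 1 ^ 2) + 2 * γ 2 * ((3 * d - 4) * γ 1 + 8 * d) -
      2 * (d - 2) * γ 1 ^ 2 * (γ 1 + 4) ≤ 3 * (γ 1 + 2 * d) * γ 3 ∧
    ((γ 2 ≤ 1 ∨ γ 1 ^ 2 + 2 * (d - 4) * γ 1 ≤ 4 * γ 2) →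
      0 ≤ γ 3 ∧ (d ≤ 7 → ∀ i : ℕ, i ≤ d / 2 → 0 ≤ γ i)) ∧
    (γ 2 = 0 → ∀ i : ℕ, 2 ≤ i → i ≤ d / 2 → γ i = 0) ∧
    (γ 2 = 1 → γ 3 = 0 → ∀ i : ℕ, 3 ≤ i → i ≤ d / 2 → γ i = 0) := by
  obtain ⟨g, hg⟩ := gammas hE
  have hg' : GV S d g := hg
  have hH := h_poly_eq hE h0
  -- the two gamma vectors agree
  have hag : ∀ i, i ≤ d / 2 → γ i = g ∅ i := by
    intro i hi
    have h1 := (hg ∅ h0).2
    rw [Finset.card_empty, Nat.sub_zero] at h1
    have h2 := Cone.unique_zero d (d / 2 + 1) (fun i => γ i - g ∅ i) (by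
      have h3 : ∀ i ∈ Finset.range (d / 2 + 1), C (γ i - g ∅ i) * X ^ i *
          (1 + X : ℤ[X]) ^ (d - 2 * i) = C (γ i) * X ^ i * (1 + X) ^ (d - 2 * i) -
          C (g ∅ i) * X ^ i * (1 + X) ^ (d - 2 * i) := by
        intro i _
        rw [C_sub]
        ring
      rw [Finset.sum_congr rfl h3, Finset.sum_sub_distrib, ← h1, ← hH, hγ, sub_self]) i (by omega)
    linarith
  have hcard : (∅ : Finset V).card + d = d := by simp
  rw [hag 1 (by omega), hag 2 (by omega), hag 3 (by omega)]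
  have hA := two_sided h hE hL hg' d (by omega) ∅ h0 hcard
  have hB := dense h hE hg' d (by omega) ∅ h0 hcard
  have hnn := nonneg h hE hL hg' ∅ h0 d hcard (by omega)
  have h1n : 0 ≤ g ∅ 1 := by
    have h1 := (entries hE hg' ∅ h0 d hcard (by omega)).1
    rw [fn_one S hE.down] at h1
    have h2 := lv_two_mul h d ∅ h0 (by simp)
    have h3 : (2 * d : ℤ) ≤ (lv S ∅).card := by exact_mod_cast h2
    linarith
  have hdz : (6 : ℤ) ≤ d := by exact_mod_cast hd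
  have h3n : (g ∅ 2 ≤ 1 ∨ g ∅ 1 ^ 2 + 2 * ((d : ℤ) - 4) * g ∅ 1 ≤ 4 * g ∅ 2) → 0 ≤ g ∅ 3 := by
    rintro (h1 | h1)
    · rcases eq_or_ne (g ∅ 2) 0 with h2 | h2
      · rw [all_zero h hE hL hg' d (by omega) ∅ h0 hcard h2 3 (by omega)]
      · exact third_nonneg h hE hL hg' d (by omega) ∅ h0 hcard (by omega)
    · have h2 : 0 ≤ 3 * (g ∅ 1 + 2 * (d : ℤ)) * g ∅ 3 := by
        refine le_trans ?_ hB
        set a := g ∅ 1 with ha
        set s := g ∅ 2 with hs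
        obtain ⟨t, ht⟩ : ∃ t : ℤ, 4 * s = a ^ 2 + 2 * ((d : ℤ) - 4) * a + t ∧ 0 ≤ t :=
          ⟨4 * s - (a ^ 2 + 2 * ((d : ℤ) - 4) * a), by ring, by linarith⟩
        obtain ⟨ht1, ht0⟩ := ht
        obtain ⟨b, hb, hb0⟩ : ∃ b : ℤ, (d : ℤ) = b + 4 ∧ 2 ≤ b := ⟨d - 4, by ring, by linarith⟩
        rw [hb] at ht1 ⊢
        have key : 4 * (s * (4 * s - a ^ 2) + 2 * s * ((3 * (b + 4) - 4) * a + 8 * (b + 4)) -
            2 * ((b + 4) - 2) * a ^ 2 * (a + 4)) =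
            16 * b * (b + 1) * a ^ 2 + 32 * b * (b + 4) * a +
              t * (a ^ 2 + (2 * b + 2 * b + 6 * b + 16) * a + 16 * (b + 4) + t) := by
          have hs4 : 4 * (s * (4 * s - a ^ 2) + 2 * s * ((3 * (b + 4) - 4) * a + 8 * (b + 4)) -
            2 * ((b + 4) - 2) * a ^ 2 * (a + 4)) =
            (4 * s) * ((4 * s) - a ^ 2) + 2 * (4 * s) * ((3 * (b + 4) - 4) * a + 8 * (b + 4)) -
            8 * ((b + 4) - 2) * a ^ 2 * (a + 4) := by ring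
          rw [hs4, ht1]
          ring
        have k1 : 0 ≤ 16 * b * (b + 1) * a ^ 2 := by positivity
        have k2 : 0 ≤ 32 * b * (b + 4) * a := by positivity
        have k3 : 0 ≤ t * (a ^ 2 + (2 * b + 2 * b + 6 * b + 16) * a + 16 * (b + 4) + t) := by
          positivity
        linarith
      have h3 : 0 < 3 * (g ∅ 1 + 2 * (d : ℤ)) := by linarith
      exact nonneg_of_mul_nonneg_right h2 h3
  refine ⟨hA, hB, ?_, ?_, ?_⟩
  · intro hc
    refine ⟨h3n hc, fun hd7 i hi => ?_⟩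
    rw [hag i hi]
    have hi4 : i < 4 := by omega
    interval_cases i
    · have h1 : γ 0 = 1 := gamma_zero_eq h0 γ hγ
      rw [← hag 0 (by omega), h1]
      norm_num
    · exact h1n
    · exact hnn
    · exact h3n hc
  · intro hz i hi2 hi
    rw [hag i hi]
    exact all_zero h hE hL hg' d (by omega) ∅ h0 hcard hz i hi2
  · intro h1 h3 i hi3 hi
    rw [hag i hi]
    exact later_zero h hE hL hg' d (by omega) ∅ h0 hcard h1 h3 i hi3

end Pool.Agent.MP19e880.G3
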