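import Pool.Agent.Lib.MP_19e880_co_G3.Exp
import Pool.Agent.Lib.MP_19e880_co_G2.Final

/-!
The third entry of the gamma vector: two-sided bounds by the second entry, and its sign when the
second entry is at most one.
-/

set_option autoImplicit false
set_option linter.unusedSectionVars false
set_option linter.unusedVariables false

namespace Pool.Agent.MP19e880.G3

open Pool.Agent.MP19e880 Pool.Agent.MP19e880.Low Pool.Agent.MP19e880.G2 Polynomial

variable {V : Type} [Fintype V] [LinearOrder V] {k : Type} [Field k]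

/-- A choice of the gamma vectors of all links. -/
def GV (S : Finset (Finset V)) (d : ℕ) (g : Finset V → ℕ → ℤ) : Prop :=
  ∀ σ ∈ S, (∀ i, d < σ.card + 2 * i → g σ i = 0) ∧
      H S d σ = ∑ i ∈ Finset.range ((d - σ.card) / 2 + 1),
        C (g σ i) * X ^ i * (1 + X) ^ (d - σ.card - 2 * i)

theorem entries {S : Finset (Finset V)} {d : ℕ} (hE : Eul S d) {g : Finset V → ℕ → ℤ}
    (hg : GV S d g) (σ : Finset V) (hσ : σ ∈ S) (e : ℕ) (he : σ.card + e = d) (he4 : 4 ≤ e) :
    g σ 1 = fn S σ 1 - 2 * e ∧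
    g σ 2 = fn S σ 2 - (2 * e - 3) * fn S σ 1 + 2 * e * (e - 2) := by
  have h1 := (hg σ hσ).2
  rw [hE.H_sum' σ hσ e he, show d - σ.card = e by omega] at h1
  refine gamma_entries e he4 (fun j => (fn S σ j : ℤ)) (g σ) ?_ ?_
  · rw [fn_zero S σ hσ]
    rfl
  · rw [← h1]
    refine Finset.sum_congr rfl fun j _ => ?_
    rw [mul_assoc]

theorem two_g2 {S : Finset (Finset V)} {d : ℕ} (h : HS k S d) (hE : Eul S d)
    {g : Finset V → ℕ → ℤ} (hg : GV S d g) (σ : Finset V) (hσ : σ ∈ S) (e : ℕ)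
    (he : σ.card + e = d) (he4 : 4 ≤ e) :
    Fam.g2 (Adj S) (lv S σ) (e : ℤ) = 2 * g σ 2 := by
  have h2 := (entries hE hg σ hσ e he he4).2
  unfold Fam.g2
  rw [h2, dg_face h hE, fn_one S hE.down]
  push_cast
  ring

theorem nonneg {S : Finset (Finset V)} {d : ℕ} (h : HS k S d) (hE : Eul S d)
    (hL : LemmaL (Adj S) (Lk S d)) {g : Finset V → ℕ → ℤ} (hg : GV S d g) (σ : Finset V)
    (hσ : σ ∈ S) (e : ℕ) (he : σ.card + e = d) (he4 : 4 ≤ e) : 0 ≤ g σ 2 := by
  have h1 := g2_nonneg (fam h hE) hL e (lv S σ) ⟨σ, hσ, rfl, he⟩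
  rw [two_g2 h hE hg σ hσ e he he4] at h1
  linarith

theorem mono {S : Finset (Finset V)} {d : ℕ} (h : HS k S d) (hE : Eul S d)
    (hL : LemmaL (Adj S) (Lk S d)) {g : Finset V → ℕ → ℤ} (hg : GV S d g) (σ : Finset V)
    (hσ : σ ∈ S) (e : ℕ) (he : σ.card + e = d) (he5 : 5 ≤ e) (v : V) (hv : v ∈ lv S σ) :
    g (insert v σ) 2 ≤ g σ 2 := by
  obtain ⟨m, rfl⟩ : ∃ m, e = m + 2 := ⟨e - 2, by omega⟩
  have hv' := (mem_lv σ v).mp hv
  have h1 := g2_link (fam h hE) hL m (lv S σ) v ⟨σ, hσ, rfl, by omega⟩ hv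
  rw [nb_lv h hE σ v hv, two_g2 h hE hg σ hσ (m + 2) he (by omega)] at h1
  rw [two_g2 h hE hg (insert v σ) hv'.2 (m + 1) (by
    rw [Finset.card_insert_of_notMem hv'.1]; omega) (by omega)] at h1
  linarith

theorem lv_card_insert {S : Finset (Finset V)} {d e : ℕ} {σ : Finset V} (he : σ.card + (e + 1) = d)
    {v : V} (hv : v ∈ lv S σ) : insert v σ ∈ S ∧ (insert v σ).card + e = d := by
  have hv' := (mem_lv σ v).mp hv
  refine ⟨hv'.2, ?_⟩
  rw [Finset.card_insert_of_notMem hv'.1]
  omega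

/-- If the second entry vanishes, so do all later ones. -/
theorem all_zero {S : Finset (Finset V)} {d : ℕ} (h : HS k S d) (hE : Eul S d)
    (hL : LemmaL (Adj S) (Lk S d)) {g : Finset V → ℕ → ℤ} (hg : GV S d g) :
    ∀ e : ℕ, 4 ≤ e → ∀ σ ∈ S, σ.card + e = d → g σ 2 = 0 → ∀ i, 2 ≤ i → g σ i = 0 := by
  intro e he4
  induction e, he4 using Nat.le_induction with
  | base =>
    intro σ hσ he h0 i hi
    rcases Nat.eq_or_lt_of_le hi with hi | hi
    · rw [← hi, h0]
    · exact (hg σ hσ).1 i (by omega)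
  | succ e he4 ih =>
    intro σ hσ he h0
    have hlink : ∀ v ∈ lv S σ, ∀ i, 2 ≤ i → g (insert v σ) i = 0 := by
      intro v hv
      obtain ⟨h1, h2⟩ := lv_card_insert he hv
      refine ih (insert v σ) h1 h2 ?_
      have h3 := mono h hE hL hg σ hσ (e + 1) he (by omega) v hv
      have h4 := nonneg h hE hL hg (insert v σ) h1 e h2 he4
      omega
    intro i hi
    induction i, hi using Nat.le_induction with
    | base => exact h0
    | succ i hi ih2 =>
      have h1 := gamma_sum hE g hg σ hσ (e + 1) he (by omega) i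
      rw [Finset.sum_eq_zero (fun v hv => hlink v hv i hi), ih2, mul_zero, zero_add] at h1
      have h2 : ((i : ℤ) + 1) ≠ 0 := by positivity
      exact (mul_eq_zero.mp h1.symm).resolve_left h2

/-- If the second entry is one, it is one for a vertex link. -/
theorem exists_one {S : Finset (Finset V)} {d : ℕ} (h : HS k S d) (hE : Eul S d)
    (hL : LemmaL (Adj S) (Lk S d)) {g : Finset V → ℕ → ℤ} (hg : GV S d g) (e : ℕ) (he6 : 6 ≤ e)
    (σ : Finset V) (hσ : σ ∈ S) (he : σ.card + e = d) (h1 : g σ 2 = 1) :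
    ∃ v ∈ lv S σ, g (insert v σ) 2 = 1 := by
  by_contra hcon
  push Not at hcon
  obtain ⟨e', rfl⟩ : ∃ e', e = e' + 1 := ⟨e - 1, by omega⟩
  have hlink : ∀ v ∈ lv S σ, ∀ i, 2 ≤ i → g (insert v σ) i = 0 := by
    intro v hv
    obtain ⟨h2, h3⟩ := lv_card_insert he hv
    refine all_zero h hE hL hg e' (by omega) (insert v σ) h2 h3 ?_
    have h4 := mono h hE hL hg σ hσ (e' + 1) he (by omega) v hv
    have h5 := nonneg h hE hL hg (insert v σ) h2 e' h3 (by omega)
    have h6 := hcon v hv
    omega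
  have hrec : ∀ j : ℕ, 2 ≤ j → ((j : ℤ) + 1) * g σ (j + 1) =
      (4 * (j : ℤ) - 2 * ((e' + 1 : ℕ) : ℤ)) * g σ j := by
    intro j hj
    have h2 := gamma_sum hE g hg σ hσ (e' + 1) he (by omega) j
    rw [Finset.sum_eq_zero (fun v hv => hlink v hv j hj)] at h2
    linarith
  rcases Nat.even_or_odd' (e' + 1) with ⟨m, hm | hm⟩
  · rw [hm] at hrec
    have key : ∀ j : ℕ, 2 ≤ j → j ≤ m → (j.factorial : ℤ) * ((m - j).factorial : ℤ) * g σ j =
        2 * ((m - 2).factorial : ℤ) * (-4) ^ (j - 2) := by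
      intro j hj
      induction j, hj using Nat.le_induction with
      | base =>
        intro _
        rw [h1]
        norm_num
      | succ j hj ih =>
        intro hjm
        have h2 := ih (by omega)
        have h3 := hrec j hj
        obtain ⟨r, hr⟩ : ∃ r, m = j + 1 + r := ⟨m - (j + 1), by omega⟩
        have e1 : m - (j + 1) = r := by omega
        have e2 : m - j = r + 1 := by omega
        have e3 : j + 1 - 2 = (j - 2) + 1 := by omega
        rw [e2, Nat.factorial_succ] at h2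
        rw [e1, e3, Nat.factorial_succ, pow_succ]
        push_cast at h2 h3 ⊢
        rw [hr] at h3
        push_cast at h3
        linear_combination (j.factorial : ℤ) * (r.factorial : ℤ) * h3 - 4 * h2
    have h2 := key m (by omega) le_rfl
    rw [Nat.sub_self, Nat.factorial_zero] at h2
    obtain ⟨r, rfl⟩ : ∃ r, m = r + 3 := ⟨m - 3, by omega⟩
    have e1 : r + 3 - 2 = r + 1 := by omega
    rw [e1, Nat.factorial_succ (r + 2), Nat.factorial_succ (r + 1)] at h2
    have h3 : ((r : ℤ) + 3) * ((r : ℤ) + 2) * g σ (r + 3) = 2 * (-4) ^ (r + 1) := by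
      have h4 : ((r + 1).factorial : ℤ) ≠ 0 := by positivity
      apply mul_left_cancel₀ h4
      push_cast at h2
      linear_combination h2
    -- an odd divisor of a power of two
    have hodd : ∃ t : ℕ, 3 ≤ t ∧ Odd t ∧ (t : ℤ) ∣ 2 * (-4) ^ (r + 1) := by
      rcases Nat.even_or_odd r with hr | hr
      · refine ⟨r + 3, by omega, by
          rw [Nat.odd_iff]
          rw [Nat.even_iff] at hr
          omega, ?_⟩
        rw [← h3]
        push_cast
        exact Dvd.intro _ (by ring : ((r : ℤ) + 3) * (((r : ℤ) + 2) * g σ (r + 3)) = _)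
      · refine ⟨r + 2, ?_, by
          rw [Nat.odd_iff] at hr ⊢
          omega, ?_⟩
        · rw [Nat.odd_iff] at hr
          omega
        · rw [← h3]
          push_cast
          exact Dvd.intro _ (by ring : ((r : ℤ) + 2) * (((r : ℤ) + 3) * g σ (r + 3)) = _)
    obtain ⟨t, ht3, hto, htd⟩ := hodd
    have h4 : t ∣ 2 ^ (2 * (r + 1) + 1) := by
      have h5 := Int.natAbs_dvd_natAbs.mpr htd
      rw [Int.natAbs_mul, Int.natAbs_pow] at h5
      simp only [Int.natAbs_natCast] at h5
      have h6 : (2 : ℤ).natAbs * (-4 : ℤ).natAbs ^ (r + 1) = 2 ^ (2 * (r + 1) + 1) := by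
        rw [pow_succ 2 (2 * (r + 1)), pow_mul]
        norm_num
        ring
      rwa [h6] at h5
    have h5 : Nat.Coprime t (2 ^ (2 * (r + 1) + 1)) :=
      Nat.Coprime.pow_right _ (Nat.coprime_two_right.mpr hto)
    have h6 := Nat.Coprime.eq_one_of_dvd h5 h4
    omega
  · -- odd case
    have key : ∀ r : ℕ, ∀ j : ℕ, 2 ≤ j → j + r = m + 1 → g σ j = 0 := by
      intro r
      induction r with
      | zero =>
        intro j hj hjm
        exact (hg σ hσ).1 j (by omega)
      | succ r ih =>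
        intro j hj hjm
        have h2 := ih (j + 1) (by omega) (by omega)
        have h3 := hrec j hj
        rw [h2, mul_zero, hm] at h3
        have h4 : (4 * (j : ℤ) - 2 * ((2 * m + 1 : ℕ) : ℤ)) ≠ 0 := by
          push_cast
          omega
        exact (mul_eq_zero.mp h3.symm).resolve_left h4
    have := key (m - 1) 2 le_rfl (by omega)
    rw [this] at h1
    exact absurd h1 (by norm_num)

/-- The lower bound for the sum over a link, from a vertex. -/
theorem sum_ge {S : Finset (Finset V)} {d : ℕ} (h : HS k S d) (hE : Eul S d)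
    (hL : LemmaL (Adj S) (Lk S d)) {g : Finset V → ℕ → ℤ} (hg : GV S d g) (e : ℕ) (he6 : 6 ≤ e)
    (σ : Finset V) (hσ : σ ∈ S) (he : σ.card + e = d) (v : V) (hv : v ∈ lv S σ) :
    g (insert v σ) 2 + ∑ u ∈ lv S (insert v σ), g (insert u (insert v σ)) 2 ≤
      ∑ u ∈ lv S σ, g (insert u σ) 2 := by
  obtain ⟨e', rfl⟩ : ∃ e', e = e' + 1 := ⟨e - 1, by omega⟩
  have hv' := (mem_lv σ v).mp hv
  have hsub : insert v (lv S (insert v σ)) ⊆ lv S σ := by
    intro u hu
    rw [Finset.mem_insert] at hu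
    rcases hu with rfl | hu
    · exact hv
    · rw [mem_lv_insert h hE σ v u hv] at hu
      exact hu.1
  have hnot : v ∉ lv S (insert v σ) := by
    rw [mem_lv]
    exact fun h' => h'.1 (Finset.mem_insert_self _ _)
  refine le_trans ?_ (Finset.sum_le_sum_of_subset_of_nonneg hsub ?_)
  · rw [Finset.sum_insert hnot]
    refine add_le_add le_rfl (Finset.sum_le_sum fun u hu => ?_)
    have hu' := (mem_lv_insert h hE σ v u hv).mp hu
    obtain ⟨h1, h2⟩ := lv_card_insert he hu'.1
    rw [Finset.insert_comm]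
    refine mono h hE hL hg (insert u σ) h1 e' h2 (by omega) v ?_
    rw [mem_lv] at hu ⊢
    constructor
    · rw [Finset.mem_insert, not_or]
      exact ⟨fun h' => hu'.2.1 h'.symm, hv'.1⟩
    · rw [Finset.insert_comm]
      exact hu.2
  · intro u hu _
    obtain ⟨h1, h2⟩ := lv_card_insert he hu
    exact nonneg h hE hL hg (insert u σ) h1 e' h2 (by omega)

/-- If the second entry is one, the third one is nonnegative. -/
theorem third_nonneg {S : Finset (Finset V)} {d : ℕ} (h : HS k S d) (hE : Eul S d)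
    (hL : LemmaL (Adj S) (Lk S d)) {g : Finset V → ℕ → ℤ} (hg : GV S d g) :
    ∀ e : ℕ, 5 ≤ e → ∀ σ ∈ S, σ.card + e = d → g σ 2 = 1 → 0 ≤ g σ 3 := by
  intro e he5
  induction e, he5 using Nat.le_induction with
  | base =>
    intro σ hσ he _
    rw [(hg σ hσ).1 3 (by omega)]
  | succ e he5 ih =>
    intro σ hσ he h1
    obtain ⟨v, hv, hv1⟩ := exists_one h hE hL hg (e + 1) (by omega) σ hσ he h1
    obtain ⟨h2, h3⟩ := lv_card_insert he hv
    have h4 := ih (insert v σ) h2 h3 hv1
    have h5 := sum_ge h hE hL hg (e + 1) (by omega) σ hσ he v hv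
    have h6 := gamma_sum hE g hg σ hσ (e + 1) he (by omega) 2
    have h7 := gamma_sum hE g hg (insert v σ) h2 e h3 (by omega) 2
    rw [h6, h7, hv1, h1] at h5
    push_cast at h5
    norm_num at h5
    linarith

/-- If the second entry is one and the third one zero, all later ones are zero. -/
theorem later_zero {S : Finset (Finset V)} {d : ℕ} (h : HS k S d) (hE : Eul S d)
    (hL : LemmaL (Adj S) (Lk S d)) {g : Finset V → ℕ → ℤ} (hg : GV S d g) :
    ∀ e : ℕ, 5 ≤ e → ∀ σ ∈ S, σ.card + e = d → g σ 2 = 1 → g σ 3 = 0 →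
      ∀ i, 3 ≤ i → g σ i = 0 := by
  intro e he5
  induction e, he5 using Nat.le_induction with
  | base =>
    intro σ hσ he _ _ i hi
    exact (hg σ hσ).1 i (by omega)
  | succ e he5 ih =>
    intro σ hσ he h1 h0
    have hlink : ∀ v ∈ lv S σ, ∀ i, 3 ≤ i → g (insert v σ) i = 0 := by
      intro v hv
      obtain ⟨h2, h3⟩ := lv_card_insert he hv
      have h4 := mono h hE hL hg σ hσ (e + 1) he (by omega) v hv
      have h5 := nonneg h hE hL hg (insert v σ) h2 e h3 (by omega)
      rcases eq_or_ne (g (insert v σ) 2) 0 with h6 | h6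
      · intro i hi
        exact all_zero h hE hL hg e (by omega) (insert v σ) h2 h3 h6 i (by omega)
      · have h7 : g (insert v σ) 2 = 1 := by omega
        have h8 := third_nonneg h hE hL hg e he5 (insert v σ) h2 h3 h7
        have h9 := sum_ge h hE hL hg (e + 1) (by omega) σ hσ he v hv
        have h10 := gamma_sum hE g hg σ hσ (e + 1) he (by omega) 2
        have h11 := gamma_sum hE g hg (insert v σ) h2 e h3 (by omega) 2
        rw [h10, h11, h7, h1] at h9
        push_cast at h9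
        norm_num at h9
        rw [h0] at h9
        exact ih (insert v σ) h2 h3 h7 (by linarith)
    intro i hi
    induction i, hi using Nat.le_induction with
    | base => exact h0
    | succ i hi ih2 =>
      have h2 := gamma_sum hE g hg σ hσ (e + 1) he (by omega) i
      rw [Finset.sum_eq_zero (fun v hv => hlink v hv i hi), ih2, mul_zero, zero_add] at h2
      have h3 : ((i : ℤ) + 1) ≠ 0 := by positivity
      exact (mul_eq_zero.mp h2.symm).resolve_left h3

/-- Two-sided bounds. -/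
theorem two_sided {S : Finset (Finset V)} {d : ℕ} (h : HS k S d) (hE : Eul S d)
    (hL : LemmaL (Adj S) (Lk S d)) {g : Finset V → ℕ → ℤ} (hg : GV S d g) (e : ℕ) (he5 : 5 ≤ e)
    (σ : Finset V) (hσ : σ ∈ S) (he : σ.card + e = d) :
    -((2 * (e : ℤ) - 8) * g σ 2) ≤ 3 * g σ 3 ∧ 3 * g σ 3 ≤ (g σ 1 + 8) * g σ 2 := by
  obtain ⟨e', rfl⟩ : ∃ e', e = e' + 1 := ⟨e - 1, by omega⟩
  have h1 := gamma_sum hE g hg σ hσ (e' + 1) he (by omega) 2
  have h2 : 0 ≤ ∑ v ∈ lv S σ, g (insert v σ) 2 := by
    refine Finset.sum_nonneg fun v hv => ?_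
    obtain ⟨h3, h4⟩ := lv_card_insert he hv
    exact nonneg h hE hL hg (insert v σ) h3 e' h4 (by omega)
  have h3 : ∑ v ∈ lv S σ, g (insert v σ) 2 ≤ (lv S σ).card * g σ 2 := by
    rw [← nsmul_eq_mul]
    exact Finset.sum_le_card_nsmul _ _ _ fun v hv =>
      mono h hE hL hg σ hσ (e' + 1) he he5 v hv
  have h4 := (entries hE hg σ hσ (e' + 1) he (by omega)).1
  rw [fn_one S hE.down] at h4
  have h5 : ((lv S σ).card : ℤ) = g σ 1 + 2 * ((e' + 1 : ℕ) : ℤ) := by linarith
  rw [h1] at h2 h3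
  rw [h5] at h3
  norm_num at h2 h3
  constructor
  · push_cast at h2 ⊢
    linarith
  · push_cast at h3
    nlinarith [h3]

end Pool.Agent.MP19e880.G3
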