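import Pool.Agent.Lib.MP_19e880_co_G3.Small

/-!
A lower bound for the third entry of the gamma vector by the first two.
-/

set_option autoImplicit false
set_option linter.unusedSectionVars false
set_option linter.unusedVariables false

namespace Pool.Agent.MP19e880.G3

open Pool.Agent.MP19e880 Pool.Agent.MP19e880.Low Pool.Agent.MP19e880.G2 Polynomial

section Graph

variable {V : Type} [DecidableEq V] {A : V → V → Prop}

/-- A connected set has at least as many edges as a tree. -/
theorem conn_edges (hs : ∀ x y, A x y → A y x) (hi : ∀ x, ¬ A x x) (C : Finset V)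
    (hne : C.Nonempty) (hC : Cn A C) : 2 * C.card ≤ dg A C + 2 := by
  classical
  have key : ∀ n : ℕ, n + 1 ≤ C.card → ∃ X : Finset V, X ⊆ C ∧ X.card = n + 1 ∧
      2 * X.card ≤ dg A X + 2 := by
    intro n
    induction n with
    | zero =>
      intro _
      obtain ⟨c, hc⟩ := hne
      exact ⟨{c}, Finset.singleton_subset_iff.mpr hc, Finset.card_singleton c, by
        rw [Finset.card_singleton]; omega⟩
    | succ n ih =>
      intro hn
      obtain ⟨X, hX, hXc, hXd⟩ := ih (by omega)
      obtain ⟨a, ha, b, hb, hbX, hab⟩ := hC X hX (Finset.card_pos.mp (by omega)) (by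
        rintro rfl
        omega)
      refine ⟨insert b X, Finset.insert_subset hb hX, by
        rw [Finset.card_insert_of_notMem hbX, hXc], ?_⟩
      have h1 : dg A X + 2 ≤ dg A (insert b X) := by
        unfold dg
        rw [Finset.sum_insert hbX]
        have h2 : 1 ≤ (nb A (insert b X) b).card :=
          Finset.card_pos.mpr ⟨a, mem_nb.mpr ⟨Finset.mem_insert_of_mem ha, hs _ _ hab⟩⟩
        have h3 : ∑ x ∈ X, (nb A X x).card + 1 ≤ ∑ x ∈ X, (nb A (insert b X) x).card := by
          rw [← Finset.add_sum_erase X _ ha, ← Finset.add_sum_erase X _ ha]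
          have h4 : (nb A X a).card + 1 ≤ (nb A (insert b X) a).card := by
            have h5 : insert b (nb A X a) ⊆ nb A (insert b X) a := by
              intro y hy
              rw [Finset.mem_insert, mem_nb] at hy
              rw [mem_nb]
              rcases hy with rfl | hy
              · exact ⟨Finset.mem_insert_self _ _, hab⟩
              · exact ⟨Finset.mem_insert_of_mem hy.1, hy.2⟩
            have h6 := Finset.card_le_card h5
            rwa [Finset.card_insert_of_notMem (fun h' => hbX (mem_nb.mp h').1)] at h6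
          have h7 : ∑ x ∈ X.erase a, (nb A X x).card ≤
              ∑ x ∈ X.erase a, (nb A (insert b X) x).card := by
            refine Finset.sum_le_sum fun x _ => Finset.card_le_card ?_
            intro y hy
            rw [mem_nb] at hy ⊢
            exact ⟨Finset.mem_insert_of_mem hy.1, hy.2⟩
          omega
        omega
      rw [Finset.card_insert_of_notMem hbX]
      omega
  have hpos := Finset.card_pos.mpr hne
  obtain ⟨X, hX, hXc, hXd⟩ := key (C.card - 1) (by omega)
  have : X = C := Finset.eq_of_subset_of_card_le hX (by omega)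
  rw [this] at hXd
  exact hXd

/-- The exact count of the edges relative to a vertex. -/
theorem dg_exact (hs : ∀ x y, A x y → A y x) (hi : ∀ x, ¬ A x x) (U : Finset V) (v : V)
    (hv : v ∈ U) :
    (dg A U : ℤ) = 2 * ∑ x ∈ na A U v, ((nb A U x).card : ℤ) - dg A (na A U v) +
      dg A (nb A U v) + 2 * (nb A U v).card := by
  classical
  have hUe : U = na A U v ∪ (nb A U v ∪ {v}) := by
    ext y
    rw [Finset.mem_union, Finset.mem_union, mem_nb, mem_na, Finset.mem_singleton]
    constructor
    · intro hy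
      by_cases h3 : A v y
      · exact Or.inr (Or.inl ⟨hy, h3⟩)
      · by_cases h4 : y = v
        · exact Or.inr (Or.inr h4)
        · exact Or.inl ⟨hy, h4, h3⟩
    · rintro (h | h | h)
      · exact h.1
      · exact h.1
      · rw [h]
        exact hv
  have d1 : Disjoint (na A U v) (nb A U v ∪ {v}) := by
    rw [Finset.disjoint_left]
    intro y hy hy2
    rw [Finset.mem_union, mem_nb, Finset.mem_singleton] at hy2
    rw [mem_na] at hy
    rcases hy2 with h | h
    · exact hy.2.2 h.2
    · exact hy.2.1 h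
  have d2 : Disjoint (nb A U v) {v} := by
    rw [Finset.disjoint_singleton_right, mem_nb]
    exact fun h' => hi v h'.2
  have h3 : ∀ x ∈ nb A U v, ((nb A U x).card : ℤ) =
      (nb A (na A U v) x).card + ((nb A (nb A U v) x).card + 1) := by
    intro x hx
    conv_lhs => rw [hUe]
    rw [Idn.nb_union A _ _ x d1, Idn.nb_union A _ _ x d2]
    have : nb A {v} x = {v} := by
      ext y
      rw [mem_nb, Finset.mem_singleton]
      constructor
      · exact fun h' => h'.1
      · rintro rfl
        exact ⟨rfl, hs _ _ (mem_nb.mp hx).2⟩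
    rw [this]
    simp
  have h4 : (dg A U : ℤ) = ∑ x ∈ na A U v, ((nb A U x).card : ℤ) +
      (∑ x ∈ nb A U v, ((nb A (na A U v) x).card : ℤ) + dg A (nb A U v) + (nb A U v).card) +
      (nb A U v).card := by
    unfold dg
    push_cast
    conv_lhs => rw [hUe]
    rw [Finset.sum_union d1, Finset.sum_union d2, Finset.sum_singleton, ← hUe,
      Finset.sum_congr rfl h3, Finset.sum_add_distrib, Finset.sum_add_distrib, Finset.sum_const]
    simp only [nsmul_eq_mul, mul_one]
    ring
  have h5 : ∀ x ∈ na A U v, ((nb A (nb A U v) x).card : ℤ) =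
      (nb A U x).card - (nb A (na A U v) x).card := by
    intro x hx
    have h6 : ((nb A U x).card : ℤ) =
        (nb A (na A U v) x).card + ((nb A (nb A U v) x).card + (nb A {v} x).card) := by
      conv_lhs => rw [hUe]
      rw [Idn.nb_union A _ _ x d1, Idn.nb_union A _ _ x d2]
    have h7 : nb A {v} x = ∅ := by
      rw [Finset.eq_empty_iff_forall_notMem]
      intro y hy
      rw [mem_nb, Finset.mem_singleton] at hy
      rw [hy.1] at hy
      exact (mem_na.mp hx).2.2 (hs _ _ hy.2)
    rw [h7, Finset.card_empty] at h6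
    push_cast at h6
    linarith
  rw [h4, Idn.sum_nb_comm A hs (nb A U v) (na A U v), Finset.sum_congr rfl h5,
    Finset.sum_sub_distrib]
  have h8 : (dg A (na A U v) : ℤ) = ∑ x ∈ na A U v, ((nb A (na A U v) x).card : ℤ) := by
    unfold dg
    push_cast
    rfl
  rw [h8]
  ring

/-- The sum over all vertices. -/
theorem dg_total {F : ℕ → Finset V → Prop} (h : Fam A F) (m : ℕ) (U : Finset V)
    (hU : F (m + 1) U) :
    2 * ∑ v ∈ U, ((nb A U v).card : ℤ) ^ 2 + 2 * (U.card : ℤ) * (U.card - 2) -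
      (U.card + 2) * dg A U ≤ ∑ v ∈ U, (dg A (nb A U v) : ℤ) := by
  classical
  have h1 : ∀ v ∈ U, (dg A U : ℤ) ≤ 2 * ∑ x ∈ na A U v, ((nb A U x).card : ℤ) -
      2 * ((U.card : ℤ) - (nb A U v).card - 2) + dg A (nb A U v) + 2 * (nb A U v).card := by
    intro v hv
    have h2 := dg_exact h.symm h.irr U v hv
    have h3 := conn_edges h.symm h.irr _ (h.na_nonempty m U v hU hv) (h.mconn m U v hU hv)
    have h4 := h.card_eq U v hv
    zify at h3 h4
    rw [h2]
    linarith
  have h2 := Finset.sum_le_sum h1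
  rw [Finset.sum_const, nsmul_eq_mul] at h2
  simp only [Finset.sum_add_distrib, Finset.sum_sub_distrib, ← Finset.mul_sum,
    Finset.sum_const, nsmul_eq_mul] at h2
  have h3 : ∑ v ∈ U, ∑ x ∈ na A U v, ((nb A U x).card : ℤ) =
      ∑ x ∈ U, ((nb A U x).card : ℤ) * ((U.card : ℤ) - (nb A U x).card - 1) := by
    rw [Finset.sum_comm' (s' := fun x => na A U x) (t' := U)]
    · refine Finset.sum_congr rfl fun x hx => ?_
      rw [Finset.sum_const, nsmul_eq_mul]
      have h4 := h.card_eq U x hx
      zify at h4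
      have h5 : ((na A U x).card : ℤ) = (U.card : ℤ) - (nb A U x).card - 1 := by linarith
      rw [h5]
      ring
    · intro v x
      rw [mem_na, mem_na]
      constructor
      · rintro ⟨h1, h2, h3, h4⟩
        exact ⟨⟨h1, h3.symm, fun h' => h4 (h.symm _ _ h')⟩, h2⟩
      · rintro ⟨⟨h1, h2, h3⟩, h4⟩
        exact ⟨h1, h4, h2.symm, fun h' => h3 (h.symm _ _ h')⟩
  have h4 : ∑ x ∈ U, ((nb A U x).card : ℤ) * ((U.card : ℤ) - (nb A U x).card - 1) =
      ((U.card : ℤ) - 1) * ∑ x ∈ U, ((nb A U x).card : ℤ) - ∑ x ∈ U, ((nb A U x).card : ℤ) ^ 2 := by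
    rw [Finset.mul_sum, ← Finset.sum_sub_distrib]
    refine Finset.sum_congr rfl fun x _ => ?_
    ring
  have h5 : (dg A U : ℤ) = ∑ x ∈ U, ((nb A U x).card : ℤ) := by
    unfold dg
    push_cast
    rfl
  rw [h3, h4, ← h5] at h2
  linarith

end Graph

variable {V : Type} [Fintype V] [LinearOrder V] {k : Type} [Field k]

/-- The lower bound for the third entry by the first two. -/
theorem dense {S : Finset (Finset V)} {d : ℕ} (h : HS k S d) (hE : Eul S d)
    {g : Finset V → ℕ → ℤ} (hg : GV S d g) (e : ℕ) (he5 : 5 ≤ e)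
    (σ : Finset V) (hσ : σ ∈ S) (he : σ.card + e = d) :
    g σ 2 * (4 * g σ 2 - g σ 1 ^ 2) + 2 * g σ 2 * ((3 * e - 4) * g σ 1 + 8 * e) -
      2 * (e - 2) * g σ 1 ^ 2 * (g σ 1 + 4) ≤ 3 * (g σ 1 + 2 * e) * g σ 3 := by
  classical
  obtain ⟨e', rfl⟩ : ∃ e', e = e' + 1 := ⟨e - 1, by omega⟩
  set U := lv S σ with hUdef
  have hsum := gamma_sum hE g hg σ hσ (e' + 1) he (by omega) 2
  obtain ⟨h1, h2⟩ := entries hE hg σ hσ (e' + 1) he (by omega)
  have hdg : (dg (Adj S) U : ℤ) = 2 * fn S σ 2 := by
    have := dg_face h hE σ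
    rw [hUdef]
    exact_mod_cast this
  have hn : (U.card : ℤ) = g σ 1 + 2 * ((e' + 1 : ℕ) : ℤ) := by
    rw [fn_one S hE.down] at h1
    linarith
  have htot := dg_total (fam h hE) e' U ⟨σ, hσ, rfl, he⟩
  -- the links
  have hlink : ∀ v ∈ U, (dg (Adj S) (nb (Adj S) U v) : ℤ) = 2 * (g (insert v σ) 2 +
      (2 * (e' : ℤ) - 3) * (nb (Adj S) U v).card - 2 * e' * (e' - 2)) := by
    intro v hv
    obtain ⟨h3, h4⟩ := lv_card_insert he hv
    obtain ⟨h5, h6⟩ := entries hE hg (insert v σ) h3 e' h4 (by omega)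
    have h7 := dg_face h hE (insert v σ)
    rw [nb_lv h hE σ v hv, h7, ← fn_one S hE.down, h6]
    push_cast
    ring
  rw [Finset.sum_congr rfl hlink, ← Finset.mul_sum, Finset.sum_sub_distrib,
    Finset.sum_add_distrib, ← Finset.mul_sum, Finset.sum_const, nsmul_eq_mul, hsum] at htot
  have hD : ∑ x ∈ U, ((nb (Adj S) U x).card : ℤ) = dg (Adj S) U := by
    unfold dg
    push_cast
    rfl
  rw [hD] at htot
  have hcs : (∑ x ∈ U, ((nb (Adj S) U x).card : ℤ)) ^ 2 ≤
      (U.card : ℤ) * ∑ x ∈ U, ((nb (Adj S) U x).card : ℤ) ^ 2 :=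
    sq_sum_le_card_mul_sum_sq
  rw [hD] at hcs
  set D : ℤ := ((dg (Adj S) U : ℕ) : ℤ) with hDdef
  set Q : ℤ := ∑ x ∈ U, ((nb (Adj S) U x).card : ℤ) ^ 2 with hQdef
  have hDv : D = 2 * (g σ 2 + (2 * ((e' + 1 : ℕ) : ℤ) - 3) * (g σ 1 + 2 * ((e' + 1 : ℕ) : ℤ)) -
      2 * ((e' + 1 : ℕ) : ℤ) * (((e' + 1 : ℕ) : ℤ) - 2)) := by
    rw [hdg, h2, h1]
    ring
  have hn0 : (0 : ℤ) ≤ U.card := by positivity
  have hmul := mul_le_mul_of_nonneg_left htot hn0
  rw [hn] at hmul hcs
  rw [hDv] at hmul hcs
  push_cast at hmul hcs ⊢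
  nlinarith [hmul, hcs]

end Pool.Agent.MP19e880.G3
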