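import Pool.Agent.Lib.MP_19e880_co.Count

/-!
Gamma expansions of the h-polynomials of all links, and the identity for the sum over the
vertices of a link.
-/

set_option autoImplicit false
set_option linter.unusedSectionVars false

namespace Pool.Agent.MP19e880.G3

open Polynomial Pool.Agent.MP19e880

/-- A symmetric polynomial has a gamma expansion. -/
theorem exists_gamma : ∀ (e : ℕ) (p : ℤ[X]), (∀ i, e < i → p.coeff i = 0) →
    (∀ i j, i + j = e → p.coeff i = p.coeff j) →
    ∃ c : ℕ → ℤ, (∀ i, e < 2 * i → c i = 0) ∧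
      p = ∑ i ∈ Finset.range (e / 2 + 1), C (c i) * X ^ i * (1 + X) ^ (e - 2 * i) := by
  intro e
  induction e using Nat.strong_induction_on with
  | _ e ih =>
    intro p hdeg hsym
    rcases Nat.lt_or_ge e 2 with he | he
    · refine ⟨fun i => if i = 0 then p.coeff 0 else 0, ?_, ?_⟩
      · intro i hi
        have : i ≠ 0 := by omega
        simp [this]
      · have h2 : e / 2 = 0 := by omega
        rw [h2, Finset.sum_range_one]
        simp only [if_true, pow_zero, mul_one, Nat.mul_zero, Nat.sub_zero]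
        interval_cases e
        · ext n
          rcases Nat.eq_zero_or_pos n with hn | hn
          · subst hn
            simp
          · rw [hdeg n hn, pow_zero, mul_one, coeff_C, if_neg (by omega)]
        · ext n
          have h01 := hsym 0 1 rfl
          rw [pow_one, coeff_C_mul, coeff_add, coeff_one, coeff_X]
          rcases n with _ | _ | n
          · simp
          · simp [h01]
          · rw [hdeg _ (by omega)]
            simp
    · obtain ⟨m, rfl⟩ : ∃ m, e = m + 2 := ⟨e - 2, by omega⟩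
      set a : ℤ := p.coeff 0 with ha
      set q : ℤ[X] := divX (p - C a * (1 + X) ^ (m + 2)) with hq
      have hcoef : ∀ n, (C a * (1 + X : ℤ[X]) ^ (m + 2)).coeff n = a * ((m + 2).choose n : ℤ) := by
        intro n
        rw [coeff_C_mul, coeff_one_add_X_pow]
      have hqc : ∀ n, q.coeff n = p.coeff (n + 1) - a * ((m + 2).choose (n + 1) : ℤ) := by
        intro n
        rw [hq, coeff_divX, coeff_sub, hcoef]
      obtain ⟨c, hc0, hc⟩ := ih m (by omega) q (by
        intro i hi
        rw [hqc]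
        rcases Nat.lt_or_ge (m + 1) i with h1 | h1
        · rw [hdeg _ (by omega), Nat.choose_eq_zero_of_lt (by omega)]
          simp
        · have : i = m + 1 := by omega
          subst this
          rw [← hsym 0 (m + 1 + 1) (by omega), Nat.choose_self, ← ha]
          simp) (by
        intro i j hij
        rw [hqc, hqc, hsym (i + 1) (j + 1) (by omega)]
        have : (m + 2).choose (i + 1) = (m + 2).choose (j + 1) :=
          Nat.choose_symm_of_eq_add (by omega)
        rw [this])
      refine ⟨fun i => if i = 0 then a else c (i - 1), ?_, ?_⟩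
      · intro i hi
        have h0 : i ≠ 0 := by omega
        simp only [h0, if_false]
        exact hc0 _ (by omega)
      · have h1 : (m + 2) / 2 + 1 = (m / 2 + 1) + 1 := by omega
        rw [h1, Finset.sum_range_succ']
        simp only [if_true, pow_zero, mul_one, Nat.mul_zero, Nat.sub_zero]
        have h2 : p = C a * (1 + X) ^ (m + 2) + X * q := by
          have h3 := divX_mul_X_add (p - C a * (1 + X) ^ (m + 2))
          have h4 : (p - C a * (1 + X) ^ (m + 2)).coeff 0 = 0 := by
            rw [coeff_sub, hcoef]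
            simp [ha]
          rw [h4, C_0, add_zero, ← hq] at h3
          linear_combination -h3
        conv_lhs => rw [h2, hc]
        rw [Finset.mul_sum, add_comm]
        congr 1
        refine Finset.sum_congr rfl fun i _ => ?_
        rw [if_neg (Nat.succ_ne_zero i), Nat.add_sub_cancel]
        have h5 : m + 2 - 2 * (i + 1) = m - 2 * i := by omega
        rw [h5, pow_succ]
        ring

variable {V : Type} [Fintype V] [LinearOrder V]

theorem coeff_X_sub_one_pow (m i : ℕ) :
    ((X - 1 : ℤ[X]) ^ m).coeff i = (-1) ^ (m - i) * (m.choose i : ℤ) := by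
  have h := coeff_X_add_C_pow (-1 : ℤ) m i
  rw [C_neg, C_1, ← sub_eq_add_neg] at h
  exact h

theorem coeff_X_pow_mul_pow (l m i : ℕ) :
    ((X : ℤ[X]) ^ l * (1 - X) ^ m).coeff (l + i) = (-1) ^ i * (m.choose i : ℤ) := by
  rw [add_comm l i, coeff_X_pow_mul]
  have h1 : (1 - X : ℤ[X]) ^ m = C ((-1) ^ m) * (X - 1) ^ m := by
    rw [C_pow, C_neg, C_1, ← mul_pow]
    congr 1
    ring
  rw [h1, coeff_C_mul, coeff_X_sub_one_pow]
  rcases Nat.lt_or_ge m i with h | h
  · rw [Nat.choose_eq_zero_of_lt h]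
    simp
  · obtain ⟨r, rfl⟩ := Nat.exists_eq_add_of_le h
    rw [Nat.add_sub_cancel_left, ← mul_assoc, pow_add]
    congr 1
    rw [mul_assoc, ← pow_add, ← two_mul, pow_mul]
    simp

/-- The h-polynomial of a link is symmetric. -/
theorem H_coeff {S : Finset (Finset V)} {d : ℕ} (h : Eul S d) (σ : Finset V) (hσ : σ ∈ S)
    (e : ℕ) (he : σ.card + e = d) :
    (∀ i, e < i → (H S d σ).coeff i = 0) ∧
    (∀ i j, i + j = e → (H S d σ).coeff i = (H S d σ).coeff j) := by
  constructor
  · intro i hi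
    unfold H
    rw [finsetSum_coeff]
    refine Finset.sum_eq_zero fun F hF => ?_
    rw [Finset.mem_filter] at hF
    have := Finset.card_le_card hF.2
    rw [coeff_X_sub_one_pow, Nat.choose_eq_zero_of_lt (by omega)]
    simp
  · intro i j hij
    conv_rhs => rw [h.H_first σ hσ]
    unfold H
    rw [finsetSum_coeff, finsetSum_coeff]
    refine Finset.sum_congr rfl fun F hF => ?_
    rw [Finset.mem_filter] at hF
    have h1 := Finset.card_le_card hF.2
    have h2 := h.le F hF.1
    obtain ⟨l, hl⟩ := Nat.exists_eq_add_of_le h1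
    obtain ⟨m, hm⟩ := Nat.exists_eq_add_of_le h2
    have e1 : d - F.card = m := by omega
    have e2 : F.card - σ.card = l := by omega
    rw [e1, e2, coeff_X_sub_one_pow]
    have hlm : l + m = e := by omega
    rcases Nat.lt_or_ge m i with h3 | h3
    · rw [Nat.choose_eq_zero_of_lt h3]
      rw [coeff_X_pow_mul', if_neg (by omega)]
      simp
    · have h4 : j = l + (m - i) := by omega
      rw [h4, coeff_X_pow_mul_pow, Nat.choose_symm h3]

/-- The gamma vectors of all links. -/
theorem gammas {S : Finset (Finset V)} {d : ℕ} (h : Eul S d) :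
    ∃ g : Finset V → ℕ → ℤ, ∀ σ ∈ S, (∀ i, d < σ.card + 2 * i → g σ i = 0) ∧
      H S d σ = ∑ i ∈ Finset.range ((d - σ.card) / 2 + 1),
        C (g σ i) * X ^ i * (1 + X) ^ (d - σ.card - 2 * i) := by
  classical
  have h1 : ∀ σ : Finset V, ∃ c : ℕ → ℤ, σ ∈ S → (∀ i, d < σ.card + 2 * i → c i = 0) ∧
      H S d σ = ∑ i ∈ Finset.range ((d - σ.card) / 2 + 1),
        C (c i) * X ^ i * (1 + X) ^ (d - σ.card - 2 * i) := by
    intro σ
    by_cases hσ : σ ∈ S
    · have hle := h.le σ hσ
      obtain ⟨h2, h3⟩ := H_coeff h σ hσ (d - σ.card) (by omega)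
      obtain ⟨c, hc, hc'⟩ := exists_gamma _ _ h2 h3
      exact ⟨c, fun _ => ⟨fun i hi => hc i (by omega), hc'⟩⟩
    · exact ⟨fun _ => 0, fun h' => absurd h' hσ⟩
  choose g hg using h1
  exact ⟨g, fun σ hσ => hg σ hσ⟩

/-- Sum over the vertices of a link, for h-polynomials. -/
theorem H_sum_links {S : Finset (Finset V)} {d : ℕ} (h : Eul S d) (σ : Finset V)
    (e : ℕ) (he : σ.card + e = d) :
    ∑ v ∈ lv S σ, H S d (insert v σ) = (e : ℤ[X]) * H S d σ + (1 - X) * derivative (H S d σ) := by
  have h1 : ∑ v ∈ lv S σ, H S d (insert v σ) =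
      ∑ F ∈ S.filter (fun F => σ ⊆ F), ∑ v ∈ F \ σ, (X - 1 : ℤ[X]) ^ (d - F.card) := by
    unfold H
    refine Finset.sum_comm' ?_
    intro v F
    unfold lv
    simp only [Finset.mem_filter, Finset.mem_univ, true_and, Finset.mem_sdiff,
      Finset.insert_subset_iff]
    constructor
    · rintro ⟨⟨h1, h2⟩, h3, h4, h5⟩
      exact ⟨⟨h4, h1⟩, h3, h5⟩
    · rintro ⟨⟨h4, h1⟩, h3, h5⟩
      exact ⟨⟨h1, h.down F h3 _ (Finset.insert_subset h4 h5)⟩, h3, h4, h5⟩
  rw [h1]
  unfold H
  rw [derivative_sum, Finset.mul_sum, Finset.mul_sum, ← Finset.sum_add_distrib]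
  refine Finset.sum_congr rfl fun F hF => ?_
  rw [Finset.mem_filter] at hF
  have h2 := Finset.card_le_card hF.2
  have h3 := h.le F hF.1
  rw [Finset.sum_const, Finset.card_sdiff_of_subset hF.2, nsmul_eq_mul]
  obtain ⟨l, hl⟩ := Nat.exists_eq_add_of_le h2
  obtain ⟨m, hm⟩ := Nat.exists_eq_add_of_le h3
  have e1 : d - F.card = m := by omega
  have e2 : F.card - σ.card = l := by omega
  have e3 : e = l + m := by omega
  rw [e1, e2, e3]
  rcases m with _ | m
  · simp
  · rw [derivative_pow, derivative_sub, derivative_X, derivative_one, Nat.add_sub_cancel,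
      C_eq_natCast, pow_succ]
    push_cast
    ring

theorem C_int (n : ℤ) : (C n : ℤ[X]) = (n : ℤ[X]) := eq_intCast C n

/-- The action on basis elements. -/
theorem basis_step (e i : ℕ) (hi : 2 * i + 1 ≤ e) :
    (e : ℤ[X]) * (X ^ i * (1 + X) ^ (e - 2 * i)) +
      (1 - X) * derivative (X ^ i * (1 + X) ^ (e - 2 * i)) =
    C (2 * (e : ℤ) - 4 * i) * (X ^ i * (1 + X) ^ (e - 1 - 2 * i)) +
      C (i : ℤ) * (X ^ (i - 1) * (1 + X) ^ (e - 1 - 2 * (i - 1))) := by
  obtain ⟨m, rfl⟩ : ∃ m, e = 2 * i + 1 + m := ⟨e - 2 * i - 1, by omega⟩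
  rcases i with _ | i
  · simp only [Nat.mul_zero, Nat.sub_zero, pow_zero, one_mul, Nat.zero_add]
    have e1 : 1 + m - 1 = m := by omega
    rw [e1, show 1 + m = m + 1 by omega, derivative_pow, derivative_add, derivative_X,
      derivative_one, Nat.add_sub_cancel, C_eq_natCast, pow_succ]
    simp only [C_int]
    push_cast
    ring
  · have e1 : 2 * (i + 1) + 1 + m - 2 * (i + 1) = m + 1 := by omega
    have e2 : 2 * (i + 1) + 1 + m - 1 - 2 * (i + 1) = m := by omega
    have e3 : 2 * (i + 1) + 1 + m - 1 - 2 * (i + 1 - 1) = m + 2 := by omega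
    rw [e1, e2, e3, derivative_mul, derivative_pow, derivative_pow, derivative_add, derivative_X,
      derivative_one, Nat.add_sub_cancel, Nat.add_sub_cancel, C_eq_natCast, C_eq_natCast]
    simp only [C_int]
    push_cast
    ring

theorem basis_top (i : ℕ) :
    ((2 * i : ℕ) : ℤ[X]) * (X ^ i * (1 + X) ^ (2 * i - 2 * i)) +
      (1 - X) * derivative (X ^ i * (1 + X) ^ (2 * i - 2 * i)) =
    C (i : ℤ) * (X ^ (i - 1) * (1 + X) ^ (2 * i - 1 - 2 * (i - 1))) := by
  rcases i with _ | i
  · simp
  · have e1 : 2 * (i + 1) - 2 * (i + 1) = 0 := by omega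
    have e3 : 2 * (i + 1) - 1 - 2 * (i + 1 - 1) = 1 := by omega
    have e4 : (C ((i + 1 : ℕ) : ℤ) : ℤ[X]) = ((i + 1 : ℕ) : ℤ[X]) := by simp
    rw [e1, e3, e4, pow_zero, mul_one, derivative_pow, derivative_X, Nat.add_sub_cancel,
      C_eq_natCast]
    push_cast
    ring

/-- The sum of the gamma vectors of the links of the vertices. -/
theorem gamma_sum {S : Finset (Finset V)} {d : ℕ} (h : Eul S d) (g : Finset V → ℕ → ℤ)
    (hg : ∀ σ ∈ S, (∀ i, d < σ.card + 2 * i → g σ i = 0) ∧
      H S d σ = ∑ i ∈ Finset.range ((d - σ.card) / 2 + 1),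
        C (g σ i) * X ^ i * (1 + X) ^ (d - σ.card - 2 * i))
    (σ : Finset V) (hσ : σ ∈ S) (e : ℕ) (he : σ.card + e = d) (he1 : 1 ≤ e) (j : ℕ) :
    ∑ v ∈ lv S σ, g (insert v σ) j = (2 * (e : ℤ) - 4 * j) * g σ j + (j + 1) * g σ (j + 1) := by
  obtain ⟨hσ0, hσH⟩ := hg σ hσ
  have hlv : ∀ v ∈ lv S σ, v ∉ σ ∧ insert v σ ∈ S := by
    intro v hv
    unfold lv at hv
    rw [Finset.mem_filter] at hv
    exact hv.2
  rcases Nat.lt_or_ge (e - 1) (2 * j) with hj | hj
  · have h1 : ∑ v ∈ lv S σ, g (insert v σ) j = 0 := by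
      refine Finset.sum_eq_zero fun v hv => ?_
      obtain ⟨h2, h3⟩ := hlv v hv
      refine (hg _ h3).1 j ?_
      rw [Finset.card_insert_of_notMem h2]
      omega
    rw [h1, hσ0 (j + 1) (by omega), mul_zero, add_zero]
    rcases Nat.lt_or_ge e (2 * j) with h2 | h2
    · rw [hσ0 j (by omega), mul_zero]
    · have : e = 2 * j := by omega
      rw [this]
      push_cast
      ring
  · have hsum := H_sum_links h σ e he
    have e1 : d - σ.card = e := by omega
    rw [e1] at hσH
    -- the left side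
    have hL : ∑ v ∈ lv S σ, H S d (insert v σ) = ∑ i ∈ Finset.range ((e - 1) / 2 + 1),
        C (∑ v ∈ lv S σ, g (insert v σ) i) * X ^ i * (1 + X) ^ (e - 1 - 2 * i) := by
      have h1 : ∀ v ∈ lv S σ, H S d (insert v σ) = ∑ i ∈ Finset.range ((e - 1) / 2 + 1),
          C (g (insert v σ) i) * X ^ i * (1 + X) ^ (e - 1 - 2 * i) := by
        intro v hv
        obtain ⟨h2, h3⟩ := hlv v hv
        have h4 := (hg _ h3).2
        rw [Finset.card_insert_of_notMem h2] at h4
        rw [show d - (σ.card + 1) = e - 1 by omega] at h4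
        exact h4
      rw [Finset.sum_congr rfl h1, Finset.sum_comm]
      refine Finset.sum_congr rfl fun i _ => ?_
      rw [map_sum, Finset.sum_mul, Finset.sum_mul]
    -- the right side
    have hR : (e : ℤ[X]) * H S d σ + (1 - X) * derivative (H S d σ) =
        ∑ i ∈ Finset.range ((e - 1) / 2 + 1),
        C ((2 * (e : ℤ) - 4 * i) * g σ i + (i + 1) * g σ (i + 1)) * X ^ i *
          (1 + X) ^ (e - 1 - 2 * i) := by
      have h1 : (e : ℤ[X]) * H S d σ + (1 - X) * derivative (H S d σ) =
          ∑ i ∈ Finset.range (e / 2 + 1), C (g σ i) * ((e : ℤ[X]) * (X ^ i * (1 + X) ^ (e - 2 * i))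
            + (1 - X) * derivative (X ^ i * (1 + X) ^ (e - 2 * i))) := by
        rw [hσH, derivative_sum, Finset.mul_sum, Finset.mul_sum, ← Finset.sum_add_distrib]
        refine Finset.sum_congr rfl fun i _ => ?_
        rw [mul_assoc, derivative_C_mul]
        ring
      rw [h1]
      have h2 : ∑ i ∈ Finset.range ((e - 1) / 2 + 1),
          C ((2 * (e : ℤ) - 4 * i) * g σ i + (i + 1) * g σ (i + 1)) * X ^ i *
          (1 + X : ℤ[X]) ^ (e - 1 - 2 * i) =
          ∑ i ∈ Finset.range ((e - 1) / 2 + 1), C (g σ i) * (C (2 * (e : ℤ) - 4 * i) *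
            (X ^ i * (1 + X) ^ (e - 1 - 2 * i))) +
          ∑ i ∈ Finset.range ((e - 1) / 2 + 1), C (g σ (i + 1)) * (C ((i : ℤ) + 1) *
            (X ^ i * (1 + X) ^ (e - 1 - 2 * i))) := by
        rw [← Finset.sum_add_distrib]
        refine Finset.sum_congr rfl fun i _ => ?_
        rw [C_add, C_mul, C_mul]
        ring
      rw [h2]
      rcases Nat.even_or_odd' e with ⟨r, hr | hr⟩
      · subst hr
        have hr1 : 1 ≤ r := by omega
        obtain ⟨s, rfl⟩ : ∃ s, r = s + 1 := ⟨r - 1, by omega⟩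
        rw [show 2 * (s + 1) / 2 + 1 = (s + 1) + 1 by omega,
          show (2 * (s + 1) - 1) / 2 + 1 = s + 1 by omega, Finset.sum_range_succ _ (s + 1),
          basis_top]
        have h3 : ∀ i ∈ Finset.range (s + 1), C (g σ i) * (((2 * (s + 1) : ℕ) : ℤ[X]) *
            (X ^ i * (1 + X) ^ (2 * (s + 1) - 2 * i))
            + (1 - X) * derivative (X ^ i * (1 + X) ^ (2 * (s + 1) - 2 * i))) =
            C (g σ i) * (C (2 * ((2 * (s + 1) : ℕ) : ℤ) - 4 * i) *
              (X ^ i * (1 + X) ^ (2 * (s + 1) - 1 - 2 * i))) +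
            C (g σ i) * (C (i : ℤ) * (X ^ (i - 1) * (1 + X) ^ (2 * (s + 1) - 1 - 2 * (i - 1)))) := by
          intro i hi
          rw [Finset.mem_range] at hi
          rw [basis_step _ i (by omega), mul_add]
        rw [Finset.sum_congr rfl h3, Finset.sum_add_distrib, add_assoc]
        congr 1
        rw [← Finset.sum_range_succ (fun i => C (g σ i) * (C (i : ℤ) * (X ^ (i - 1) *
          (1 + X : ℤ[X]) ^ (2 * (s + 1) - 1 - 2 * (i - 1))))) (s + 1), Finset.sum_range_succ']
        simp only [Nat.cast_zero, C_0, zero_mul, mul_zero, add_zero]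
        refine Finset.sum_congr rfl fun i _ => ?_
        rw [Nat.add_sub_cancel]
        push_cast
        rfl
      · subst hr
        rw [show (2 * r + 1) / 2 + 1 = r + 1 by omega,
          show (2 * r + 1 - 1) / 2 + 1 = r + 1 by omega]
        have h3 : ∀ i ∈ Finset.range (r + 1), C (g σ i) * (((2 * r + 1 : ℕ) : ℤ[X]) *
            (X ^ i * (1 + X) ^ (2 * r + 1 - 2 * i))
            + (1 - X) * derivative (X ^ i * (1 + X) ^ (2 * r + 1 - 2 * i))) =
            C (g σ i) * (C (2 * ((2 * r + 1 : ℕ) : ℤ) - 4 * i) *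
              (X ^ i * (1 + X) ^ (2 * r + 1 - 1 - 2 * i))) +
            C (g σ i) * (C (i : ℤ) * (X ^ (i - 1) * (1 + X) ^ (2 * r + 1 - 1 - 2 * (i - 1)))) := by
          intro i hi
          rw [Finset.mem_range] at hi
          rw [basis_step _ i (by omega), mul_add]
        rw [Finset.sum_congr rfl h3, Finset.sum_add_distrib]
        congr 1
        rw [Finset.sum_range_succ', Finset.sum_range_succ _ r, hσ0 (r + 1) (by omega)]
        simp only [Nat.cast_zero, C_0, zero_mul, mul_zero, add_zero]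
        refine Finset.sum_congr rfl fun i _ => ?_
        rw [Nat.add_sub_cancel]
        push_cast
        rfl
    have h2 := Cone.unique_zero (e - 1) ((e - 1) / 2 + 1)
      (fun i => ∑ v ∈ lv S σ, g (insert v σ) i -
        ((2 * (e : ℤ) - 4 * i) * g σ i + (i + 1) * g σ (i + 1))) (by
      have h3 : ∀ i ∈ Finset.range ((e - 1) / 2 + 1),
          C (∑ v ∈ lv S σ, g (insert v σ) i -
            ((2 * (e : ℤ) - 4 * i) * g σ i + (i + 1) * g σ (i + 1))) * X ^ i *
              (1 + X : ℤ[X]) ^ (e - 1 - 2 * i) =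
          C (∑ v ∈ lv S σ, g (insert v σ) i) * X ^ i * (1 + X) ^ (e - 1 - 2 * i) -
          C ((2 * (e : ℤ) - 4 * i) * g σ i + (i + 1) * g σ (i + 1)) * X ^ i *
          (1 + X) ^ (e - 1 - 2 * i) := by
        intro i _
        rw [C_sub]
        ring
      rw [Finset.sum_congr rfl h3, Finset.sum_sub_distrib, ← hL, ← hR, hsum, sub_self])
      j (by omega)
    linarith

end Pool.Agent.MP19e880.G3
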